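import Pool.Agent.Helper85.PCP.Stmts

/-! # Module ODD: at odd phases every token gives only letters `c` -/

set_option autoImplicit false

namespace PCP4

/-- popping letters `c` -/
theorem ODD_pop (m : ℕ) (hm : 1 ≤ m) (hm2 : m % 2 = 0) (tr : ℕ → List Bool) (n : ℕ) :
    ∀ φ < m, ∀ Q : List Bool, ∃ φ' < m, φ' % 2 = (φ + n) % 2 ∧ ∃ R : List Bool,
      (∀ x ∈ R, x = false) ∧
      (istep m tr)^[n] (φ, List.replicate n false ++ Q) = (φ', Q ++ R) := by
  induction n with
  | zero =>
    intro φ hφ Q
    exact ⟨φ, hφ, rfl, [], by simp, by simp⟩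
  | succ n ih =>
    intro φ hφ Q
    rw [List.replicate_succ, List.cons_append, Function.iterate_succ_apply]
    by_cases h0 : φ = 0
    · subst h0
      obtain ⟨φ', h1, h2, R, h3, h4⟩ := ih (m - 1) (by omega) (Q ++ [false])
      refine ⟨φ', h1, by omega, false :: R, ?_, ?_⟩
      · intro x hx
        rcases List.mem_cons.mp hx with h | h
        · exact h
        · exact h3 x h
      · have e : istep m tr (0, false :: (List.replicate n false ++ Q)) =
            (m - 1, List.replicate n false ++ (Q ++ [false])) := by
          simp [istep]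
        rw [e, h4]
        simp
    · obtain ⟨φ', h1, h2, R, h3, h4⟩ := ih (φ - 1) (by omega) Q
      refine ⟨φ', h1, by omega, R, h3, ?_⟩
      have e : istep m tr (φ, false :: (List.replicate n false ++ Q)) =
          (φ - 1, List.replicate n false ++ Q) := by
        simp [istep, h0]
      rw [e, h4]

theorem st_ODD : ST_ODD := by
  intro V s A P D' a b hV W
  have hm2 : (V * nu A) % 2 = 0 := by
    have : nu A = 2 * (2 * A + 1) := by unfold nu; ring
    rw [this, show V * (2 * (2 * A + 1)) = 2 * (V * (2 * A + 1)) by ring]
    exact Nat.mul_mod_right 2 _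
  set m := V * nu A with hm
  set tr := trk V s A P D' a b with htr
  have htrue : ∀ φ, φ % 2 = 1 → ∀ Q : List Bool, istep m tr (φ, true :: Q) =
      (φ, Q ++ List.replicate (1 + (m - 1) * s) false) := by
    intro φ hφ Q
    show (φ, Q ++ tr φ) = _
    rw [htr]
    unfold trk
    rw [if_pos hφ]
  induction W with
  | nil =>
    intro _ φ hφ hodd Q
    exact ⟨0, φ, hφ, hodd, [], by simp, by simp [letters]⟩
  | cons t W ih =>
    intro hW φ hφ hodd Q
    have hm1 : 1 ≤ m := by omega
    have hW' : TokOk A W := by
      intro x hx
      exact hW x (List.mem_cons_of_mem _ hx)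
    have hl : letters A (t :: W) = lt1 A t ++ letters A W := by
      simp [letters]
    rw [hl, List.append_assoc]
    cases t with
    | none =>
      obtain ⟨n, φ', h1, h2, R, h3, h4⟩ := ih hW' φ hφ hodd
        (Q ++ List.replicate (1 + (m - 1) * s) false)
      refine ⟨n + 1, φ', h1, h2, List.replicate (1 + (m - 1) * s) false ++ R, ?_, ?_⟩
      · intro x hx
        rcases List.mem_append.mp hx with h | h
        · exact List.eq_of_mem_replicate h
        · exact h3 x h
      · rw [Function.iterate_succ_apply]
        have e : lt1 A none ++ (letters A W ++ Q) = true :: (letters A W ++ Q) := by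
          simp [lt1]
        rw [e, htrue φ hodd, List.append_assoc, h4, List.append_assoc]
    | some τ =>
      have hτ : τ < A := hW τ List.mem_cons_self
      have e : lt1 A (some τ) ++ (letters A W ++ Q) = List.replicate (xx A τ) false ++
          (true :: (List.replicate (nu A - xx A τ) false ++ (letters A W ++ Q))) := by
        simp [lt1]
      have hx2 : xx A τ % 2 = 0 := by unfold xx; omega
      have hn2 : (nu A - xx A τ) % 2 = 0 := by unfold xx nu; omega
      rw [e]
      obtain ⟨φ1, a1, a2, R1, a3, a4⟩ := ODD_pop m hm1 hm2 tr (xx A τ) φ hφ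
        (true :: (List.replicate (nu A - xx A τ) false ++ (letters A W ++ Q)))
      obtain ⟨φ2, b1, b2, R2, b3, b4⟩ := ODD_pop m hm1 hm2 tr (nu A - xx A τ) φ1 a1
        (letters A W ++ (Q ++ (R1 ++ List.replicate (1 + (m - 1) * s) false)))
      obtain ⟨n, φ', h1, h2, R, h3, h4⟩ := ih hW' φ2 b1 (by omega)
        (Q ++ (R1 ++ List.replicate (1 + (m - 1) * s) false) ++ R2)
      refine ⟨n + ((nu A - xx A τ) + (1 + xx A τ)), φ', h1, h2,
        (R1 ++ List.replicate (1 + (m - 1) * s) false) ++ R2 ++ R, ?_, ?_⟩
      · intro x hx
        simp only [List.mem_append] at hx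
        rcases hx with ((h | h) | h) | h
        · exact a3 x h
        · exact List.eq_of_mem_replicate h
        · exact b3 x h
        · exact h3 x h
      · rw [Function.iterate_add_apply, Function.iterate_add_apply, Function.iterate_add_apply, a4]
        have e2 : (istep m tr)^[1] (φ1, (true :: (List.replicate (nu A - xx A τ) false ++
            (letters A W ++ Q))) ++ R1) = (φ1, List.replicate (nu A - xx A τ) false ++
            (letters A W ++ (Q ++ (R1 ++ List.replicate (1 + (m - 1) * s) false)))) := by
          rw [Function.iterate_one, List.cons_append, htrue φ1 (by omega)]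
          simp
        rw [e2, b4]
        have e3 : letters A W ++ (Q ++ (R1 ++ List.replicate (1 + (m - 1) * s) false)) ++ R2 =
            letters A W ++ (Q ++ (R1 ++ List.replicate (1 + (m - 1) * s) false) ++ R2) := by
          simp
        rw [e3, h4]
        simp

end PCP4
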